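import Mathlib

set_option autoImplicit false

namespace Pool.Agent.Results.MP_9f71e8_nt.Holds

open Finset Nat

/-- `n = p_1^{α_1} + ⋯ + p_L^{α_L}` with all `α_j ≥ 1`; `nth Nat.Prime j` is `p_{j+1}`. -/
def Rep (L n : ℕ) : Prop :=
  ∃ α : ℕ → ℕ, (∀ j, 1 ≤ α j) ∧ n = ∑ j ∈ range L, nth Nat.Prime j ^ α j

theorem Rep.step {L n : ℕ} (h : Rep L n) (a : ℕ) : Rep (L + 1) (n + nth Nat.Prime L ^ (a + 1)) := by
  obtain ⟨α, h1, rfl⟩ := h
  refine ⟨Function.update α L (a + 1), fun j => ?_, ?_⟩
  · by_cases e : j = L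
    · simp [e]
    · simp [e, h1]
  · rw [sum_range_succ, Function.update_self]
    congr 1
    exact sum_congr rfl fun j hj => by rw [Function.update_of_ne (mem_range.mp hj).ne]

def st (b x : ℕ) : ℕ → ℕ
  | 0 => 0
  | a + 1 => if x ^ (a + 1) ≤ 600 then st b x a ||| b <<< x ^ (a + 1) else st b x a

def B : ℕ → ℕ
  | 0 => 1
  | x + 1 => if x.Prime then st (B x) x 9 else B x

theorem B_rep (x : ℕ) : ∀ n, (B x).testBit n → Rep (count Nat.Prime x) n := by
  induction x with
  | zero =>
    intro n h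
    obtain rfl : n = 0 := testBit_one_eq_true_iff_self_eq_zero.mp h
    exact ⟨fun _ => 1, fun _ => le_rfl, by simp⟩
  | succ x ih =>
    rw [B, count_succ]
    split_ifs with hx
    · have : ∀ a n, (st (B x) x a).testBit n → Rep (count Nat.Prime x + 1) n := by
        intro a
        induction a with
        | zero => simp [st]
        | succ a iha =>
          intro n
          rw [st]
          split_ifs
          · rw [testBit_or, testBit_shiftLeft, Bool.or_eq_true, Bool.and_eq_true, decide_eq_true_iff]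
            rintro (h | ⟨h1, h2⟩)
            · exact iha n h
            · have := (ih _ h2).step a
              rwa [nth_count hx, Nat.sub_add_cancel h1] at this
          · exact iha n
      exact this 9
    · exact ih

theorem sum_cnt (f : ℕ → ℕ) (x : ℕ) : ∑ i ∈ range (count Nat.Prime x), f (nth Nat.Prime i) =
    ∑ p ∈ range x, if p.Prime then f p else 0 := by
  induction x with
  | zero => simp
  | succ x ih =>
    rw [count_succ, sum_range_succ, ← ih]
    split_ifs with hx
    · rw [sum_range_succ, nth_count hx]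
    · rfl

noncomputable def S (k : ℕ) : ℕ := ∑ i ∈ range k, nth Nat.Prime i

noncomputable def V (k : ℕ) : ℕ := ∑ i ∈ range k, (nth Nat.Prime i).choose 2

theorem big (x k : ℕ) (hx : 8000 ≤ x) (h : primeCounting x = k + 1) : 3 * x ^ 2 ≤ k ^ 3 := by
  have h1 := Chebyshev.pi_ge x
  have hx' : (8000 : ℝ) ≤ x := by exact_mod_cast hx
  obtain ⟨y, h2, h3⟩ : ∃ y : ℝ, 20 ≤ y ∧ y ^ 3 = x := by
    have : ((x : ℝ) ^ ((3 : ℕ) : ℝ)⁻¹) ^ 3 = x := Real.rpow_inv_natCast_pow (by linarith) (by norm_num)
    refine ⟨_, ?_, this⟩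
    exact le_of_pow_le_pow_left₀ (n := 3) (by norm_num) (by positivity) (by rw [this]; linarith)
  have l2 := Real.log_two_gt_d9
  have l3 := Real.log_two_lt_d9
  have l4 : Real.log x = 3 * (4 * Real.log 2 + Real.log (y / 16)) := by
    rw [← h3, Real.log_pow, Real.log_div (by linarith) (by norm_num),
      show (16 : ℝ) = 2 ^ 4 by norm_num, Real.log_pow]
    push_cast; ring
  have l5 := Real.log_le_sub_one_of_pos (show 0 < y / 16 by linarith)
  have l6 : Real.log x ≤ 0.4535 * y := by linarith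
  have l7 : 0 < Real.log x := Real.log_pos (by linarith)
  have l8 : Real.log (x + 1) ≤ 2 * Real.log x := by
    rw [two_mul, ← Real.log_mul (by linarith) (by linarith)]
    exact Real.log_le_log (by linarith) (by nlinarith)
  rw [div_le_iff₀ l7, h] at h1
  push_cast at h1
  have l9 : 0.6931 * y ^ 3 ≤ (k + 3) * (0.4535 * y) := by
    have : (k + 3 : ℝ) * Real.log x ≤ (k + 3) * (0.4535 * y) := by gcongr
    nlinarith
  have l10 : 1.5 * y ^ 2 ≤ k := by
    by_contra hc
    have : (k + 3 : ℝ) * (0.4535 * y) ≤ (1.5 * y ^ 2 + 3) * (0.4535 * y) := by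
      gcongr; linarith
    nlinarith [mul_le_mul h2 h2 (by norm_num) (by linarith)]
  have : (1.5 * y ^ 2) ^ 3 ≤ (k : ℝ) ^ 3 := by gcongr
  have : 3 * (x : ℝ) ^ 2 ≤ (k : ℝ) ^ 3 := by rw [← h3]; nlinarith [pow_nonneg (show 0 ≤ y by linarith) 6]
  exact_mod_cast this

theorem V_ge (k : ℕ) : k ^ 3 ≤ 6 * V k := by
  induction k with
  | zero => simp
  | succ k ih =>
    have := choose_le_choose 2 (add_two_le_nth_prime k)
    have e : 2 * (k + 2).choose 2 = (k + 2) * (k + 1) := by
      rw [choose_two_right]; exact Nat.mul_div_cancel' (even_mul_pred_self _).two_dvd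
    rw [V, sum_range_succ, ← V]
    nlinarith

theorem c6 : count Nat.Prime 17 = 6 := by decide +kernel

theorem q_ge (k : ℕ) (hk : 6 ≤ k) : 17 ≤ nth Nat.Prime k := by
  rw [← nth_count (show Nat.Prime 17 by norm_num), c6]
  exact nth_monotone infinite_setOfPred_prime hk

theorem A (k : ℕ) (hk : 6 ≤ k) : (nth Nat.Prime k).choose 2 ≤ V k + 1 := by
  have h0 := q_ge k hk
  have h1 := count_nth_of_infinite infinite_setOfPred_prime k
  have hp := prime_nth_prime k
  set x := nth Nat.Prime k
  have h (a b : ℕ) (h : b * (b - 1) / 2 ≤ ∑ p ∈ range a,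
      if 2 ≤ p ∧ p < 35 * 35 ∧ ∀ m < 35, 2 ≤ m → m < p → p % m ≠ 0 then p * (p - 1) / 2 else 0)
      (h2 : a ≤ x) (h3 : x ≤ b) : x.choose 2 ≤ V k + 1 := by
    rw [V, ← h1, sum_cnt fun p => p.choose 2]
    simp only [← choose_two_right] at h
    refine ((choose_le_choose 2 h3).trans (h.trans ((sum_le_sum fun p _ => ?_).trans
      (sum_le_sum_of_subset (range_subset_range.mpr h2))))).trans (le_succ _)
    split_ifs with c1 c2
    · rfl
    · refine absurd (prime_def_le_sqrt.mpr ⟨c1.1, fun m m1 m2 m3 => ?_⟩) c2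
      exact c1.2.2 m (m2.trans_lt (sqrt_lt.mpr c1.2.1)) m1
        (m2.trans_lt (sqrt_lt_self c1.1)) (mod_eq_zero_of_dvd m3)
    all_goals exact Nat.zero_le _
  by_cases a1 : x ≤ 18; · exact h 17 18 (by decide +kernel) h0 a1
  by_cases a2 : x ≤ 25; · exact h 18 25 (by decide +kernel) (by omega) a2
  by_cases a3 : x ≤ 38; · exact h 25 38 (by decide +kernel) (by omega) a3
  by_cases a4 : x ≤ 67; · exact h 38 67 (by decide +kernel) (by omega) a4
  by_cases a5 : x ≤ 141; · exact h 67 141 (by decide +kernel) (by omega) a5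
  by_cases a6 : x ≤ 400; · exact h 141 400 (by decide +kernel) (by omega) a6
  by_cases a7 : x ≤ 1200; · exact h 400 1200 (by decide +kernel) (by omega) a7
  by_cases a8 : x ≤ 8000; · exact h 1200 8000 (by decide +kernel) (by omega) a8
  have := big x k (by omega) (by rw [primeCounting, primeCounting', count_succ, if_pos hp, h1])
  have := V_ge k
  have e : 2 * x.choose 2 ≤ x ^ 2 := by
    rw [choose_two_right, sq]
    exact (Nat.mul_div_le _ _).trans (Nat.mul_le_mul_left _ (Nat.sub_le _ _))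
  omega

theorem I (k : ℕ) (hk : 6 ≤ k) : ∀ m ≤ V k, Rep k (S k + 116 + 2 * m) := by
  induction k, hk using Nat.le_induction with
  | base =>
    have e1 : S 6 = 41 := by rw [S, ← c6, sum_cnt fun p => p]; decide +kernel
    have e2 : V 6 = 168 := by rw [V, ← c6, sum_cnt fun p => p.choose 2]; decide +kernel
    rw [e1, e2, ← c6]
    intro m hm
    exact B_rep 17 _ ((by decide +kernel : ∀ m ≤ 168, (B 17).testBit (41 + 116 + 2 * m)) m hm)
  | succ k hk ih =>
    intro m hm
    rw [V, sum_range_succ, ← V] at hm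
    rw [S, sum_range_succ, ← S]
    by_cases h : m ≤ V k
    · convert (ih m h).step 0 using 1
      ring
    · have := A k hk
      have e : 2 * (nth Nat.Prime k).choose 2 + nth Nat.Prime k = nth Nat.Prime k ^ (1 + 1) := by
        obtain ⟨y, hy⟩ : ∃ y, nth Nat.Prime k = y + 1 := ⟨_, (Nat.succ_pred (prime_nth_prime k).ne_zero).symm⟩
        rw [choose_two_right, Nat.mul_div_cancel' (even_mul_pred_self _).two_dvd, hy]
        simp; ring
      convert (ih (m - (nth Nat.Prime k).choose 2) (by omega)).step 1 using 1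
      omega

theorem cover (n : ℕ) (hn : 174 ≤ n) : ∃ k, 6 ≤ k ∧ S k + nth Nat.Prime k + 116 ≤ n ∧
    n ≤ S k + 116 + 3 * nth Nat.Prime k := by
  induction n, hn using Nat.le_induction with
  | base =>
    have e1 : S 6 = 41 := by rw [S, ← c6, sum_cnt fun p => p]; decide +kernel
    have e2 : nth Nat.Prime 6 = 17 := by rw [← c6, nth_count (by norm_num)]
    exact ⟨6, le_rfl, by omega, by omega⟩
  | succ n hn ih =>
    obtain ⟨k, h1, h2, h3⟩ := ih
    by_cases h : n + 1 ≤ S k + 116 + 3 * nth Nat.Prime k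
    · exact ⟨k, h1, by omega, h⟩
    obtain ⟨r, r1, r2, r3⟩ := exists_prime_lt_and_le_two_mul _ (prime_nth_prime k).ne_zero
    have a1 : nth Nat.Prime (k + 1) ≤ r := (isLeast_nth_of_infinite infinite_setOfPred_prime _).2
      ⟨r1, fun j hj => (nth_monotone infinite_setOfPred_prime (by omega)).trans_lt r2⟩
    have a2 : nth Nat.Prime k < nth Nat.Prime (k + 1) :=
      nth_strictMono infinite_setOfPred_prime (lt_add_one k)
    have a3 : S (k + 1) = S k + nth Nat.Prime k := sum_range_succ _ _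
    exact ⟨k + 1, by omega, by omega, by omega⟩

theorem result : ∀ n : ℕ, 34 ≤ n → ∃ L, 1 ≤ L ∧ Rep L n := by
  intro n hn
  by_cases h : n < 174
  · obtain ⟨x, h1, h2, h3⟩ := (by decide +kernel :
      ∀ n < 174, 34 ≤ n → ∃ x < 32, 1 ≤ count Nat.Prime x ∧ (B x).testBit n) n h hn
    exact ⟨_, h2, B_rep x n h3⟩
  obtain ⟨k, h1, h2, h3⟩ := cover n (by omega)
  have a1 := A k h1
  have a2 := q_ge k h1
  have a3 : S (k + 1) = S k + nth Nat.Prime k := sum_range_succ _ _
  have a4 : V k ≤ V (k + 1) := sum_le_sum_of_subset (by simp)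
  have a5 := (prime_nth_prime k).eq_two_or_odd
  have a6 : 2 * nth Nat.Prime k ≤ (nth Nat.Prime k).choose 2 := by
    rw [choose_two_right, Nat.le_div_iff_mul_le (by norm_num), mul_comm 2, mul_assoc]
    exact Nat.mul_le_mul_left _ (by omega)
  by_cases e : (n - S k) % 2 = 0
  · refine ⟨k, by omega, ?_⟩
    convert I k h1 ((n - S k - 116) / 2) (by omega) using 1
    omega
  · refine ⟨k + 1, by omega, ?_⟩
    convert I (k + 1) (by omega) ((n - S (k + 1) - 116) / 2) (by omega) using 1
    omega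

end Pool.Agent.Results.MP_9f71e8_nt.Holds
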